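import Pool.Agent.Helper16.ETH.Params

/-!
# MP_bca398_lc, project ETHT (sharp hardness), the arithmetic of the budget

If `g(N) = o((log N)^(3β/2 - 1) / (log log N)^(β/2))`, `2/3 < β ≤ 1`, then `N ^ (g N + 1) ≤ 2 ^ (C0 + ⌊n^β⌋ / J)` for all
`N ≤ bound n`, for every `J` with some `C0`.

Proof: `y = log N ≤ 21 X`, `X = κ² r`; `y³ / log y` is increasing for `y ≥ e`, and `log (21 X) ≥ 2 log κ ≥ r`, so
`y³ / log y ≤ 9261 (κ³ r)² ≤ 9261 (128 (n + 1))²`.
-/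

set_option autoImplicit false

open Filter Topology

namespace Pool.Agent.Helper58.ETHT

open Pool.Agent.Helper36.PT Pool.Agent.Helper50.ETH Pool.Agent.Helper16.ETH

/-- The size allowed for the exponent. -/
noncomputable def hh (β : ℝ) (N : ℕ) : ℝ :=
  (Real.log N) ^ (3 * β / 2 - 1) / (Real.log (Real.log N)) ^ (β / 2)

theorem log_ratio {y Y : ℝ} (h0 : 0 < y) (hy : 1 ≤ Real.log y) (h : y ≤ Y) :
    y ^ 3 / Real.log y ≤ Y ^ 3 / Real.log Y := by
  have hY0 : 0 < Y := h0.trans_le h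
  have hl : Real.log y ≤ Real.log Y := Real.log_le_log h0 h
  have hly : 0 < Real.log y := by linarith
  have hlY : 0 < Real.log Y := by linarith
  have ht1 : 1 ≤ Y / y := (one_le_div h0).2 h
  have h1 : Real.log Y ≤ (Y / y) * Real.log y := by
    have h2 : Real.log (Y / y) ≤ Y / y - 1 := Real.log_le_sub_one_of_pos (by positivity)
    rw [Real.log_div hY0.ne' h0.ne'] at h2
    have h3 : Y / y - 1 ≤ (Y / y - 1) * Real.log y := le_mul_of_one_le_right (by linarith) hy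
    nlinarith
  rw [div_le_div_iff₀ hly hlY]
  have h4 : y ^ 3 * Real.log Y ≤ y ^ 3 * ((Y / y) * Real.log y) :=
    mul_le_mul_of_nonneg_left h1 (by positivity)
  have h5 : y ^ 3 * ((Y / y) * Real.log y) = (y ^ 2 * Y) * Real.log y := by
    field_simp
  have h6 : (y ^ 2 * Y) * Real.log y ≤ Y ^ 3 * Real.log y := by
    refine mul_le_mul_of_nonneg_right ?_ hly.le
    have h7 : y ^ 2 ≤ Y ^ 2 := pow_le_pow_left₀ h0.le h 2
    calc y ^ 2 * Y ≤ Y ^ 2 * Y := mul_le_mul_of_nonneg_right h7 hY0.le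
      _ = Y ^ 3 := by ring
  linarith [h5 ▸ h4]

theorem log_le_XX (n N : ℕ) (hN : 1 ≤ N) (h : N ≤ bound n) : Real.log N ≤ 21 * (XX n : ℝ) := by
  have h1 : (N : ℝ) ≤ (2 : ℝ) ^ (30 * XX n) := by
    exact_mod_cast h.trans (bound_le n)
  have h2 : Real.log N ≤ Real.log ((2 : ℝ) ^ (30 * XX n)) :=
    Real.log_le_log (by exact_mod_cast hN) h1
  rw [Real.log_pow] at h2
  push_cast at h2
  have h3 := Real.log_two_lt_d9
  have h4 : (0 : ℝ) ≤ XX n := Nat.cast_nonneg _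
  nlinarith

theorem rr_le_log (n : ℕ) : (rr n : ℝ) ≤ Real.log (21 * (XX n : ℝ)) := by
  have hk : (2 : ℝ) ≤ kap n := by exact_mod_cast two_le_kap n
  have hr : (1 : ℝ) ≤ rr n := by exact_mod_cast one_le_rr n
  have h1 : (2 : ℝ) ^ rr n ≤ kap n := by exact_mod_cast two_pow_rr_le_kap n
  have h2 : (rr n : ℝ) * Real.log 2 ≤ Real.log (kap n) := by
    have := Real.log_le_log (by positivity) h1
    rwa [Real.log_pow] at this
  have h3 : (kap n : ℝ) ^ 2 ≤ 21 * (XX n : ℝ) := by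
    unfold XX
    push_cast
    nlinarith [sq_nonneg (kap n : ℝ)]
  have h4 : Real.log ((kap n : ℝ) ^ 2) ≤ Real.log (21 * (XX n : ℝ)) :=
    Real.log_le_log (by positivity) h3
  rw [Real.log_pow] at h4
  push_cast at h4
  have h5 := Real.log_two_gt_d9
  nlinarith

theorem cube_le (n : ℕ) {y : ℝ} (h0 : 0 < y) (hy : 1 ≤ Real.log y) (h : y ≤ 21 * (XX n : ℝ)) :
    y ^ 3 / Real.log y ≤ 9261 * (128 * ((n : ℝ) + 1)) ^ 2 := by
  refine (log_ratio h0 hy h).trans ?_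
  have hr : (1 : ℝ) ≤ rr n := by exact_mod_cast one_le_rr n
  have h1 := rr_le_log n
  have h2 : (21 * (XX n : ℝ)) ^ 3 / Real.log (21 * (XX n : ℝ)) ≤ (21 * (XX n : ℝ)) ^ 3 / (rr n : ℝ) :=
    div_le_div_of_nonneg_left (by positivity) (by linarith) h1
  refine h2.trans ?_
  have h3 : (21 * (XX n : ℝ)) ^ 3 / (rr n : ℝ) = 9261 * ((kap n : ℝ) ^ 3 * (rr n : ℝ)) ^ 2 := by
    unfold XX
    push_cast
    field_simp
    ring
  rw [h3]
  have h4 : (kap n : ℝ) ^ 3 * (rr n : ℝ) ≤ 128 * ((n : ℝ) + 1) := by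
    exact_mod_cast kap_cube_le n
  exact mul_le_mul_of_nonneg_left (pow_le_pow_left₀ (by positivity) h4 2) (by norm_num)

/-- `F(log N) ≤ K (n ^ β + 1)` for `N ≤ bound n`. -/
theorem core (β : ℝ) (h1 : 2 / 3 < β) (h2 : β ≤ 1) : ∃ K : ℝ, 0 < K ∧ ∀ n N : ℕ, 1 ≤ N →
    1 ≤ Real.log (Real.log N) → N ≤ bound n → Real.log N * hh β N ≤ K * ((n : ℝ) ^ β + 1) := by
  refine ⟨(9261 * 128 ^ 2 : ℝ) ^ (β / 2), by positivity, fun n N hN hl hb => ?_⟩
  obtain ⟨y, hy⟩ : ∃ y, y = Real.log N := ⟨_, rfl⟩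
  have hy0 : 0 < y := by
    rcases lt_trichotomy y 0 with h | h | h
    · exfalso
      have : 0 ≤ Real.log N := Real.log_nonneg (by exact_mod_cast hN)
      linarith
    · exfalso
      rw [← hy, h, Real.log_zero] at hl
      linarith
    · exact h
  have hx := log_le_XX n N hN hb
  rw [← hy] at hl hx
  have hly : 0 < Real.log y := by linarith
  have hc := cube_le n hy0 hl hx
  have e1 : Real.log N * hh β N = (y ^ 3 / Real.log y) ^ (β / 2) := by
    unfold hh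
    rw [← hy, Real.div_rpow (by positivity) hly.le, ← Real.rpow_natCast, ← Real.rpow_mul hy0.le,
      mul_div_assoc']
    congr 1
    conv_lhs => rw [← Real.rpow_one y]
    rw [← Real.rpow_mul hy0.le, ← Real.rpow_add hy0]
    congr 1
    push_cast
    ring
  rw [e1]
  have h3 : (y ^ 3 / Real.log y) ^ (β / 2) ≤ (9261 * (128 * ((n : ℝ) + 1)) ^ 2) ^ (β / 2) :=
    Real.rpow_le_rpow (by positivity) hc (by linarith)
  refine h3.trans ?_
  have h4 : (9261 * (128 * ((n : ℝ) + 1)) ^ 2 : ℝ) = (9261 * 128 ^ 2) * ((n : ℝ) + 1) ^ 2 := by ring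
  rw [h4, Real.mul_rpow (by norm_num) (by positivity)]
  refine mul_le_mul_of_nonneg_left ?_ (by positivity)
  have h5 : (((n : ℝ) + 1) ^ 2) ^ (β / 2) = ((n : ℝ) + 1) ^ β := by
    rw [← Real.rpow_natCast, ← Real.rpow_mul (by positivity)]
    congr 1
    push_cast
    ring
  rw [h5]
  have h6 := Real.rpow_add_le_add_rpow (Nat.cast_nonneg n : (0 : ℝ) ≤ n) zero_le_one
    (by linarith : 0 ≤ β) h2
  rwa [Real.one_rpow] at h6

theorem one_le_hh (β : ℝ) (h1 : 2 / 3 < β) (ε : ℝ) (hε : 0 < ε) :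
    ∀ᶠ N : ℕ in atTop, 1 ≤ ε * hh β N := by
  have hs : 0 < 3 * β / 2 - 1 := by linarith
  have h2 := (isLittleO_log_rpow_rpow_atTop (β / 2) hs).bound hε
  have h3 : Tendsto (fun N : ℕ => Real.log (N : ℝ)) atTop atTop :=
    Real.tendsto_log_atTop.comp tendsto_natCast_atTop_atTop
  have h4 : Tendsto (fun N : ℕ => Real.log (Real.log (N : ℝ))) atTop atTop :=
    Real.tendsto_log_atTop.comp h3
  filter_upwards [h3.eventually h2, h4.eventually_ge_atTop 1, h3.eventually_ge_atTop 0] with N h5 h6 h7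
  unfold hh
  have h8 : 0 < (Real.log (Real.log (N : ℝ))) ^ (β / 2) := Real.rpow_pos_of_pos (by linarith) _
  rw [Real.norm_of_nonneg h8.le, Real.norm_of_nonneg (Real.rpow_nonneg h7 _)] at h5
  rw [← mul_div_assoc, le_div_iff₀ h8, one_mul]
  exact h5

theorem arith (β : ℝ) (h1 : 2 / 3 < β) (h2 : β ≤ 1) (g : ℕ → ℕ)
    (hg : ∀ ε : ℝ, 0 < ε → ∃ N0 : ℕ, ∀ N : ℕ, N0 ≤ N → (g N : ℝ) ≤ ε * hh β N)
    (J : ℕ) (hJ : 1 ≤ J) :
    ∃ C0 : ℕ, ∀ n N : ℕ, 1 ≤ N → N ≤ bound n →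
      N ^ (g N + 1) ≤ 2 ^ (C0 + ⌊(n : ℝ) ^ β⌋₊ / J) := by
  obtain ⟨K, hK, hcore⟩ := core β h1 h2
  have hJ0 : (0 : ℝ) < J := by exact_mod_cast hJ
  obtain ⟨ε, hε⟩ : ∃ ε : ℝ, ε = 0.69 / (2 * K * J) := ⟨_, rfl⟩
  have hε0 : 0 < ε := by rw [hε]; positivity
  obtain ⟨N0, hN0⟩ := hg ε hε0
  have h4 : Tendsto (fun N : ℕ => Real.log (Real.log (N : ℝ))) atTop atTop :=
    Real.tendsto_log_atTop.comp (Real.tendsto_log_atTop.comp tendsto_natCast_atTop_atTop)
  obtain ⟨N1, hN1⟩ := eventually_atTop.1 ((one_le_hh β h1 ε hε0).and (h4.eventually_ge_atTop 1))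
  obtain ⟨N2, hN2⟩ : ∃ N2, N2 = max N0 N1 := ⟨_, rfl⟩
  refine ⟨3 + ∑ N ∈ Finset.range N2, N ^ (g N + 1), fun n N hN hb => ?_⟩
  by_cases hlt : N < N2
  · have h5 : N ^ (g N + 1) ≤ ∑ N ∈ Finset.range N2, N ^ (g N + 1) :=
      Finset.single_le_sum (f := fun N => N ^ (g N + 1)) (fun _ _ => Nat.zero_le _)
        (Finset.mem_range.2 hlt)
    calc N ^ (g N + 1) ≤ 2 ^ (N ^ (g N + 1)) := Nat.lt_two_pow_self.le
      _ ≤ _ := Nat.pow_le_pow_right (by norm_num)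
          (h5.trans ((Nat.le_add_left _ _).trans (Nat.le_add_right _ _)))
  · have hge : N2 ≤ N := not_lt.1 hlt
    have g1 := hN0 N ((le_max_left _ _).trans (hN2 ▸ hge))
    obtain ⟨g2, g3⟩ := hN1 N ((le_max_right _ _).trans (hN2 ▸ hge))
    have g4 := hcore n N hN g3 hb
    have hNR : (0 : ℝ) < N := by exact_mod_cast hN
    have hlog0 : 0 ≤ Real.log N := Real.log_nonneg (by exact_mod_cast hN)
    -- the real inequality
    have g5 : ((g N : ℝ) + 1) * Real.log N ≤ 0.69 * (((n : ℝ) ^ β + 1) / J) := by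
      have g6 : ((g N : ℝ) + 1) ≤ 2 * ε * hh β N := by linarith
      calc ((g N : ℝ) + 1) * Real.log N ≤ (2 * ε * hh β N) * Real.log N :=
            mul_le_mul_of_nonneg_right g6 hlog0
        _ = 2 * ε * (Real.log N * hh β N) := by ring
        _ ≤ 2 * ε * (K * ((n : ℝ) ^ β + 1)) := mul_le_mul_of_nonneg_left g4 (by positivity)
        _ = 0.69 * (((n : ℝ) ^ β + 1) / J) := by
            rw [hε]
            field_simp
    obtain ⟨t, ht⟩ : ∃ t : ℕ, t = ⌊(n : ℝ) ^ β⌋₊ := ⟨_, rfl⟩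
    have ht1 : (n : ℝ) ^ β < t + 1 := by
      rw [ht]
      exact Nat.lt_floor_add_one _
    have hdiv : (t : ℝ) / J < ((t / J : ℕ) : ℝ) + 1 := by
      rw [div_lt_iff₀ hJ0]
      have h6 : t < (t / J + 1) * J := by
        rw [mul_comm]
        exact Nat.lt_mul_div_succ t hJ
      exact_mod_cast h6
    have hJ1 : (1 : ℝ) ≤ J := by exact_mod_cast hJ
    have g7 : ((n : ℝ) ^ β + 1) / J ≤ ((t / J : ℕ) : ℝ) + 3 := by
      have h7 : ((n : ℝ) ^ β + 1) / J ≤ ((t : ℝ) + 2) / J :=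
        div_le_div_of_nonneg_right (by linarith) hJ0.le
      have h8 : ((t : ℝ) + 2) / J = (t : ℝ) / J + 2 / J := add_div _ _ _
      have h9 : (2 : ℝ) / J ≤ 2 := div_le_self (by norm_num) hJ1
      linarith
    have g8 : (0 : ℝ) ≤ ((t / J : ℕ) : ℝ) + 3 := by positivity
    have g9 : ((g N : ℝ) + 1) * Real.log N ≤ (((t / J : ℕ) : ℝ) + 3) * Real.log 2 := by
      have h10 := Real.log_two_gt_d9
      calc ((g N : ℝ) + 1) * Real.log N ≤ 0.69 * (((n : ℝ) ^ β + 1) / J) := g5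
        _ ≤ 0.69 * (((t / J : ℕ) : ℝ) + 3) := mul_le_mul_of_nonneg_left g7 (by norm_num)
        _ = (((t / J : ℕ) : ℝ) + 3) * 0.69 := by ring
        _ ≤ _ := mul_le_mul_of_nonneg_left (by linarith) g8
    have g10 : ((N ^ (g N + 1) : ℕ) : ℝ) ≤ ((2 ^ (t / J + 3) : ℕ) : ℝ) := by
      push_cast
      rw [← Real.log_le_log_iff (by positivity) (by positivity), Real.log_pow, Real.log_pow]
      push_cast
      exact g9
    have g11 : N ^ (g N + 1) ≤ 2 ^ (t / J + 3) := by exact_mod_cast g10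
    refine g11.trans (Nat.pow_le_pow_right (by norm_num) ?_)
    rw [← ht]
    omega

end Pool.Agent.Helper58.ETHT
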